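import Pool.Agent.Helper21.PS.Basic

/-!
# MP_8013d7_co : module LB (sharp lower bound for the number of consistent path systems)
-/

set_option autoImplicit false

namespace PS

open SimpleGraph Finset Pool.Agent.Helper37.PathSys
open Pool.Agent.Helper37.PathSys.PathSystem

open scoped Classical

noncomputable section

variable {n : ℕ} {G : SimpleGraph (Fin n)}

theorem LB_prod (H : Finset (Fin n)) (hne : ∀ p : Pr n, (opt G H p).Nonempty) :
    ∏ p : Pr n, (opt G H p).card ≤ (Al G).card := by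
  rw [← Fintype.card_piFinset]
  refine card_le_card_of_injOn
    (fun g => if hg : ∀ p, g p ∈ opt G H p then (midOf g hg).system else
      (midOf (G := G) (H := H) (fun p => Classical.choose (hne p))
        (fun p => Classical.choose_spec (hne p))).system) ?_ ?_
  · intro g hg
    have hg' : ∀ p, g p ∈ opt G H p := Fintype.mem_piFinset.1 (mem_coe.1 hg)
    simp only [hg', implies_true, dif_pos]
    rw [mem_coe]
    unfold Al
    rw [mem_filter]
    exact ⟨mem_univ _, Mid.consistent _⟩
  · intro g hg g' hg' heq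
    have h1 : ∀ p, g p ∈ opt G H p := Fintype.mem_piFinset.1 (mem_coe.1 hg)
    have h2 : ∀ p, g' p ∈ opt G H p := Fintype.mem_piFinset.1 (mem_coe.1 hg')
    simp only [h1, h2, implies_true, dif_pos] at heq
    funext p
    rw [← nxt_midOf g h1 p, ← nxt_midOf g' h2 p, heq]

/-- the direct pairs -/
def LBdir (G : SimpleGraph (Fin n)) (H : Finset (Fin n)) : Finset (Pr n) :=
  univ.filter fun p => Dir G H p.1.1 p.1.2

theorem LB_dir_card (H : Finset (Fin n)) : (LBdir G H).card ≤ ∑ x ∈ H, dg G x := by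
  have h1 : (LBdir G H).card ≤ (H.sigma fun x => NF G x).card := by
    refine card_le_card_of_injOn
      (fun p => if p.1.1 ∈ H then (⟨p.1.1, p.1.2⟩ : Σ _ : Fin n, Fin n) else ⟨p.1.2, p.1.1⟩) ?_ ?_
    · intro p hp
      have hp' := mem_coe.1 hp
      unfold LBdir at hp'
      rw [mem_filter] at hp'
      obtain ⟨_, h1, h2⟩ := hp'
      rw [mem_coe]
      beta_reduce
      by_cases h3 : p.1.1 ∈ H
      · rw [if_pos h3, mem_sigma]
        refine ⟨h3, ?_⟩
        unfold NF
        rw [mem_filter]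
        exact ⟨mem_univ _, h1⟩
      · rw [if_neg h3, mem_sigma]
        refine ⟨h2.resolve_left h3, ?_⟩
        unfold NF
        rw [mem_filter]
        exact ⟨mem_univ _, h1.symm⟩
    · rintro ⟨⟨a, b⟩, hab⟩ _ ⟨⟨c, d⟩, hcd⟩ _ h
      have hab' : a < b := hab
      have hcd' : c < d := hcd
      simp only at h
      by_cases h3 : a ∈ H <;> by_cases h4 : c ∈ H
      · rw [if_pos h3, if_pos h4] at h
        simp only [Sigma.mk.injEq, heq_eq_eq] at h
        simp [h.1, h.2]
      · rw [if_pos h3, if_neg h4] at h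
        simp only [Sigma.mk.injEq, heq_eq_eq] at h
        rw [h.1, h.2] at hab'
        exact absurd hab' (not_lt.2 hcd'.le)
      · rw [if_neg h3, if_pos h4] at h
        simp only [Sigma.mk.injEq, heq_eq_eq] at h
        rw [h.1, h.2] at hab'
        exact absurd hab' (not_lt.2 hcd'.le)
      · rw [if_neg h3, if_neg h4] at h
        simp only [Sigma.mk.injEq, heq_eq_eq] at h
        simp [h.1, h.2]
  rw [card_sigma] at h1
  exact h1

theorem LB_H0 (n h : ℕ) : (H0 n h).card ≤ h := by
  have h1 : (H0 n h).card ≤ (range h).card := by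
    refine card_le_card_of_injOn (fun i => i.val) ?_ ?_
    · intro i hi
      have hi' := mem_coe.1 hi
      unfold H0 at hi'
      rw [mem_filter] at hi'
      rw [mem_coe, mem_range]
      exact hi'.2
    · intro i _ j _ hij
      exact Fin.ext hij
  rwa [card_range] at h1

theorem lower_sharp {h : ℕ} {lam δ : ℝ} (hp : Par n h lam δ) (hG : GoodG δ h G) :
    0 < (Al G).card ∧
    NN n * (lam - 1) - 100 * NN n / lam ≤ Real.log ((Al G).card : ℝ) := by
  obtain ⟨hbig, heq, hclose, hd0, hds, _⟩ := hp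
  have hlam : (0 : ℝ) < lam := by linarith
  -- the size of h
  have hh0 : (0 : ℝ) < (h : ℝ) := by
    rcases Nat.eq_zero_or_pos h with h0 | h0
    · rw [h0] at heq
      simp at heq
      linarith
    · exact_mod_cast h0
  have hexp : (h : ℝ) / 4 = Real.exp lam := by
    rw [heq, Real.exp_log (by positivity)]
  have hhlam : 4 * (lam + 1) ≤ (h : ℝ) := by
    have := Real.add_one_le_exp lam
    linarith
  have hc1 := (abs_le.mp hclose).1
  have hc2 : lam - 2 ≤ (n : ℝ) / h := by linarith
  have hn1 : (lam - 2) * h ≤ (n : ℝ) := by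
    rwa [le_div_iff₀ hh0] at hc2
  have hnh : (h : ℝ) ≤ (n : ℝ) := by nlinarith
  have hnlam : lam + 1 ≤ (n : ℝ) := by linarith
  have hn0 : (0 : ℝ) < (n : ℝ) := by linarith
  -- δ is small
  have hδ : δ ≤ 1 / lam ^ 4 := by
    rw [le_div_iff₀ (by positivity)]
    exact hds
  have hlam4 : lam ≤ lam ^ 4 / 10 := by
    have h1 : (10 : ℝ) ≤ lam ^ 3 := by
      have : (10 : ℝ) ^ 3 ≤ lam ^ 3 := pow_le_pow_left₀ (by norm_num) (by linarith) 3
      linarith
    have h2 : lam * 10 ≤ lam * lam ^ 3 := mul_le_mul_of_nonneg_left h1 hlam.le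
    nlinarith
  have hδ' : δ * lam ≤ 1 / 10 := by
    have h1 : δ * lam ≤ δ * (lam ^ 4 / 10) := mul_le_mul_of_nonneg_left hlam4 hd0
    linarith
  have hδs : δ ≤ 1 / 10 ^ 6 := by
    have h1 : δ * 10 ^ 6 ≤ δ * lam := mul_le_mul_of_nonneg_left hbig hd0
    have h2 : δ * 10 ^ 6 ≤ 1 := by linarith
    rw [le_div_iff₀ (by norm_num)]
    exact h2
  -- the options
  set H := H0 n h with hH
  set K : ℝ := (1 / 4 - δ) * h with hK
  have hK1 : 1 ≤ K := by
    rw [hK]
    have : (1 / 8 : ℝ) * h ≤ (1 / 4 - δ) * h := mul_le_mul_of_nonneg_right (by linarith) hh0.le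
    linarith
  have hopt : ∀ p : Pr n, p ∉ LBdir G H → K ≤ ((opt G H p).card : ℝ) := by
    intro p hpD
    have hd : ¬ Dir G H p.1.1 p.1.2 := by
      intro hd
      apply hpD
      unfold LBdir
      rw [mem_filter]
      exact ⟨mem_univ _, hd⟩
    unfold opt
    rw [if_neg hd]
    exact hG.hub _ _ p.2.ne
  have hopt1 : ∀ p : Pr n, (opt G H p).Nonempty := by
    intro p
    by_cases hd : Dir G H p.1.1 p.1.2
    · unfold opt
      rw [if_pos hd]
      exact singleton_nonempty _
    · rw [← card_pos]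
      have hpD : p ∉ LBdir G H := by
        intro h1
        unfold LBdir at h1
        rw [mem_filter] at h1
        exact hd h1.2
      have h1 := hopt p hpD
      have h2 : (0 : ℝ) < ((opt G H p).card : ℝ) := by linarith
      exact_mod_cast h2
  have hprod := LB_prod H hopt1
  have hpos : 0 < (Al G).card := by
    refine lt_of_lt_of_le ?_ hprod
    exact prod_pos fun p _ => card_pos.2 (hopt1 p)
  refine ⟨hpos, ?_⟩
  have hprod' : ∏ p : Pr n, ((opt G H p).card : ℝ) ≤ ((Al G).card : ℝ) := by exact_mod_cast hprod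
  have hlow : K ^ ((LBdir G H)ᶜ.card) ≤ ∏ p : Pr n, ((opt G H p).card : ℝ) := by
    calc K ^ ((LBdir G H)ᶜ.card) = ∏ p : Pr n, (if p ∈ LBdir G H then (1 : ℝ) else K) := by
          rw [prod_ite]
          simp only [prod_const, one_pow, one_mul]
          congr 2
          ext p
          simp
      _ ≤ _ := by
          refine prod_le_prod (fun p _ => ?_) (fun p _ => ?_)
          · split_ifs
            · norm_num
            · linarith
          · split_ifs with h1
            · have := card_pos.2 (hopt1 p)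
              exact_mod_cast this
            · exact hopt p h1
  have hlog : ((LBdir G H)ᶜ.card : ℝ) * Real.log K ≤ Real.log ((Al G).card : ℝ) := by
    rw [← Real.log_pow]
    exact Real.log_le_log (by positivity) (hlow.trans hprod')
  -- number of direct pairs
  have hDc : ((LBdir G H).card : ℝ) ≤ (h : ℝ) * ((1 / 2 + δ) * n) := by
    have h1 : ((LBdir G H).card : ℝ) ≤ ∑ x ∈ H, (dg G x : ℝ) := by
      exact_mod_cast LB_dir_card H
    have h2 : ∑ x ∈ H, (dg G x : ℝ) ≤ (H.card : ℝ) * ((1 / 2 + δ) * n) := by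
      rw [← nsmul_eq_mul, ← sum_const]
      exact sum_le_sum fun x _ => hG.deg x
    have h3 : (H.card : ℝ) ≤ (h : ℝ) := by exact_mod_cast LB_H0 n h
    have h4 : (H.card : ℝ) * ((1 / 2 + δ) * n) ≤ (h : ℝ) * ((1 / 2 + δ) * n) :=
      mul_le_mul_of_nonneg_right h3 (by positivity)
    linarith
  have hcomp : ((LBdir G H)ᶜ.card : ℝ) = NN n - ((LBdir G H).card : ℝ) := by
    have h1 : (LBdir G H).card + (LBdir G H)ᶜ.card = n.choose 2 := by
      rw [card_add_card_compl, card_Pr]
    unfold NN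
    rw [← h1]
    push_cast
    ring
  -- logarithms
  have hlogK : Real.log K = lam + Real.log (1 - 4 * δ) := by
    rw [heq, ← Real.log_mul (by positivity) (by linarith)]
    congr 1
    rw [hK]; ring
  have hlogd : -(8 * δ) ≤ Real.log (1 - 4 * δ) := by
    have h1 := Real.one_sub_inv_le_log_of_pos (show (0 : ℝ) < 1 - 4 * δ by linarith)
    refine le_trans ?_ h1
    have h2 : (1 - 4 * δ)⁻¹ ≤ 1 + 8 * δ := by
      rw [inv_le_iff_one_le_mul₀ (by linarith)]
      nlinarith
    linarith
  have hlogK0 : 0 ≤ Real.log K := Real.log_nonneg hK1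
  have hlogKle : Real.log K ≤ lam := by
    rw [hlogK]
    have : Real.log (1 - 4 * δ) ≤ 0 := Real.log_nonpos (by linarith) (by linarith)
    linarith
  have hNN : NN n = (n : ℝ) * (n - 1) / 2 := by
    unfold NN
    rw [Nat.cast_choose_two]
  have hNpos : 0 ≤ NN n := by unfold NN; positivity
  rw [hcomp] at hlog
  refine le_trans ?_ hlog
  have e1 : (NN n - ((LBdir G H).card : ℝ)) * Real.log K =
      NN n * Real.log K - ((LBdir G H).card : ℝ) * Real.log K := by ring
  rw [e1]
  have e2 : NN n * (lam - 8 * δ) ≤ NN n * Real.log K := by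
    apply mul_le_mul_of_nonneg_left _ hNpos
    rw [hlogK]; linarith
  have e3 : ((LBdir G H).card : ℝ) * Real.log K ≤ (h : ℝ) * ((1 / 2 + δ) * n) * lam := by
    have h1 : ((LBdir G H).card : ℝ) * Real.log K ≤ (h : ℝ) * ((1 / 2 + δ) * n) * Real.log K :=
      mul_le_mul_of_nonneg_right hDc hlogK0
    have h2 : (h : ℝ) * ((1 / 2 + δ) * n) * Real.log K ≤ (h : ℝ) * ((1 / 2 + δ) * n) * lam :=
      mul_le_mul_of_nonneg_left hlogKle (by positivity)
    linarith
  -- h lam ≤ n (1 + 3 / lam)
  have e4 : (h : ℝ) * lam ≤ n * (1 + 3 / lam) := by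
    have h1 : lam ≤ (lam - 2) * (1 + 3 / lam) := by
      have : (lam - 2) * (1 + 3 / lam) = lam + 1 - 6 / lam := by
        field_simp
        ring
      rw [this]
      have h2 : 6 / lam ≤ 1 := by
        rw [div_le_one hlam]; linarith
      linarith
    calc (h : ℝ) * lam ≤ (h : ℝ) * ((lam - 2) * (1 + 3 / lam)) :=
          mul_le_mul_of_nonneg_left h1 hh0.le
      _ = ((lam - 2) * h) * (1 + 3 / lam) := by ring
      _ ≤ n * (1 + 3 / lam) := mul_le_mul_of_nonneg_right hn1 (by positivity)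
  have e5 : (h : ℝ) * ((1 / 2 + δ) * n) * lam ≤ n ^ 2 / 2 * ((1 + 2 * δ) * (1 + 3 / lam)) := by
    calc (h : ℝ) * ((1 / 2 + δ) * n) * lam = ((h : ℝ) * lam) * ((1 / 2 + δ) * n) := by ring
      _ ≤ (n * (1 + 3 / lam)) * ((1 / 2 + δ) * n) :=
          mul_le_mul_of_nonneg_right e4 (by positivity)
      _ = _ := by ring
  have e6 : (n : ℝ) ^ 2 / 2 ≤ NN n * (1 + 1 / lam) := by
    rw [hNN]
    have h1 : (n : ℝ) ≤ (n - 1) * (1 + 1 / lam) := by
      have : ((n : ℝ) - 1) * (1 + 1 / lam) = n - 1 + (n - 1) / lam := by ring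
      rw [this]
      have h2 : 1 ≤ ((n : ℝ) - 1) / lam := by
        rw [le_div_iff₀ hlam]; linarith
      linarith
    nlinarith
  have e7 : (1 + 1 / lam) * ((1 + 2 * δ) * (1 + 3 / lam)) ≤ 1 + 10 / lam := by
    set x := 1 / lam with hx
    have hx0 : 0 < x := by positivity
    have hx1 : x ≤ 1 / 10 ^ 6 := by
      rw [hx]
      exact one_div_le_one_div_of_le (by norm_num) hbig
    have h3 : 3 / lam = 3 * x := by rw [hx]; ring
    have h10 : 10 / lam = 10 * x := by rw [hx]; ring
    have hdx : δ ≤ x := by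
      rw [hx, le_div_iff₀ hlam]; linarith
    rw [h3, h10]
    have h4 : (1 + 2 * δ) ≤ 1 + 2 * x := by linarith
    have h5 : (1 + x) * ((1 + 2 * δ) * (1 + 3 * x)) ≤ (1 + x) * ((1 + 2 * x) * (1 + 3 * x)) := by
      gcongr
    refine h5.trans ?_
    have h6 : x * x ≤ x * (1 / 10 ^ 6) := mul_le_mul_of_nonneg_left hx1 hx0.le
    have h7 : x * x * x ≤ x * (1 / 10 ^ 6) * 1 := by
      have : x ≤ 1 := by linarith
      exact mul_le_mul h6 this hx0.le (by positivity)
    have h8 : (1 + x) * ((1 + 2 * x) * (1 + 3 * x)) =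
        1 + 6 * x + 11 * (x * x) + 6 * (x * x * x) := by ring
    rw [h8]
    linarith
  have e8 : n ^ 2 / 2 * ((1 + 2 * δ) * (1 + 3 / lam)) ≤ NN n * (1 + 10 / lam) := by
    calc (n : ℝ) ^ 2 / 2 * ((1 + 2 * δ) * (1 + 3 / lam))
        ≤ NN n * (1 + 1 / lam) * ((1 + 2 * δ) * (1 + 3 / lam)) :=
          mul_le_mul_of_nonneg_right e6 (by positivity)
      _ = NN n * ((1 + 1 / lam) * ((1 + 2 * δ) * (1 + 3 / lam))) := by ring
      _ ≤ NN n * (1 + 10 / lam) := mul_le_mul_of_nonneg_left e7 hNpos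
  have e9 : NN n * (8 * δ) ≤ NN n * (1 / lam) := by
    apply mul_le_mul_of_nonneg_left _ hNpos
    rw [le_div_iff₀ hlam]
    linarith
  have e10 : 100 * NN n / lam = NN n * (100 / lam) := by ring
  have e11 : NN n * (100 / lam) = 100 * (NN n * (1 / lam)) := by ring
  have e12 : NN n * (1 + 10 / lam) = NN n + 10 * (NN n * (1 / lam)) := by ring
  have e13 : 0 ≤ NN n * (1 / lam) := by positivity
  rw [e10, e11]
  nlinarith

end

end PS
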